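import Pool.Agent.H81.NCH.Stmts
import Pool.Agent.H81.NCH.Base

/-!
# NCH: living stops
-/

set_option autoImplicit false

namespace Pool.Agent.H57.NCH

open Pool.Agent.H81.NCH

/-- the lowest common ancestor of two different big cores -/
theorem cls_lca {i X X' : ℕ} (hX : X / 2 ^ 9 = i) (hX' : X' / 2 ^ 9 = i) (hlt : X < X') :
    ∃ k ≤ 8, ∃ P, X / 2 ^ k = 2 * P ∧ X' / 2 ^ k = 2 * P + 1 ∧ P / 2 ^ (8 - k) = i := by
  classical
  have hex : ∃ k, X / 2 ^ (k + 1) = X' / 2 ^ (k + 1) := ⟨8, by rw [hX, hX']⟩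
  have hk := Nat.find_spec hex
  have hk8 : Nat.find hex ≤ 8 := Nat.find_min' hex (by rw [hX, hX'])
  have hmin : ∀ k < Nat.find hex, X / 2 ^ (k + 1) ≠ X' / 2 ^ (k + 1) := fun k hk => Nat.find_min hex hk
  generalize Nat.find hex = k at hk hk8 hmin
  have hne : X / 2 ^ k ≠ X' / 2 ^ k := by
    rcases k with _ | k
    · simpa using hlt.ne
    · exact hmin k (by omega)
  have hle : X / 2 ^ k ≤ X' / 2 ^ k := Nat.div_le_div_right hlt.le
  have h1 : X / 2 ^ (k + 1) = X / 2 ^ k / 2 := by rw [pow_succ, Nat.div_div_eq_div_mul]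
  have h2 : X' / 2 ^ (k + 1) = X' / 2 ^ k / 2 := by rw [pow_succ, Nat.div_div_eq_div_mul]
  refine ⟨k, hk8, X / 2 ^ (k + 1), ?_, ?_, ?_⟩
  · omega
  · omega
  · rw [Nat.div_div_eq_div_mul, ← pow_add]
    have h3 : k + 1 + (8 - k) = 9 := by omega
    rw [h3]
    exact hX

theorem cls_thm (hCLP : CLPStmt) : CLSStmt := by
  rintro h m r e i a c b hm hr he hi hb hal ⟨⟨x, hx, h1, h2⟩, ⟨x', hx', h1', h2'⟩⟩
  have hp : 2 ^ (e + 9) = 512 * 2 ^ e := by rw [pow_add]; ring
  have hX : 512 * i + x < 2 ^ (e + 9) := by rw [hp]; omega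
  have hX' : 512 * i + x' < 2 ^ (e + 9) := by rw [hp]; omega
  have hlt : 512 * i + x < 512 * i + x' := by
    by_contra hcon
    have h3 := cs_lt_ce (h := h) (m := m) (e := e + 9) (by omega) (512 * i + x)
    rcases eq_or_ne (512 * i + x) (512 * i + x') with h4 | h4
    · rw [← h4] at h1'
      omega
    · have h5 := disjoint_same (h := h) (m := m) (e := e + 9) (by omega) (by omega)
        (show 512 * i + x' < 512 * i + x by omega) hX
      have h6 := st_le_cs (h := h) (m := m) (e + 9) (512 * i + x)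
      have h7 := ce_le_en (h := h) (m := m) (e + 9) (512 * i + x')
      have h8 := cs_le_ce (h := h) (m := m) (e + 9) (512 * i + x')
      omega
  obtain ⟨k, hk, P, hP, hP', hPi⟩ := cls_lca (i := i) (by norm_num; omega) (by norm_num; omega) hlt
  have hin : Inside e i (e + (8 - k)) P := ⟨by omega, by
    rw [show e + (8 - k) - e = 8 - k by omega]; exact hPi⟩
  have hPlt := hin.lt_pow hi
  have hL : Inside (e + (8 - k) + 1) (2 * P) (e + 9) (512 * i + x) := ⟨by omega, by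
    rw [show e + 9 - (e + (8 - k) + 1) = k by omega]; exact hP⟩
  have hR : Inside (e + (8 - k) + 1) (2 * P + 1) (e + 9) (512 * i + x') := ⟨by omega, by
    rw [show e + 9 - (e + (8 - k) + 1) = k by omega]; exact hP'⟩
  have hL' := hL.pow_lt hX
  have hR' := hR.pow_lt hX'
  have hcl : Inside (e + (8 - k)) P (e + (8 - k) + 1) (2 * P) := ⟨by omega, by
    rw [show e + (8 - k) + 1 - (e + (8 - k)) = 1 by omega]; omega⟩
  have hcr : Inside (e + (8 - k)) P (e + (8 - k) + 1) (2 * P + 1) := ⟨by omega, by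
    rw [show e + (8 - k) + 1 - (e + (8 - k)) = 1 by omega]; omega⟩
  rcases hCLP h m r (e + (8 - k)) P (e + 9) (512 * i + x) (e + 9) (512 * i + x') a c b hm hr hPlt
    (by omega) (by omega) hL hR h1 h2 h1' h2' hb hal with h3 | ⟨h3, h4⟩ | h3 | h3
  · exact Or.inl h3
  · exact Or.inr ⟨_, _, hin, h3, by omega, hPlt, h4⟩
  · exact Or.inr ⟨_, _, hin.trans hcl, by omega, by omega, hL', h3⟩
  · exact Or.inr ⟨_, _, hin.trans hcr, by omega, by omega, hR', h3⟩

theorem _root_.Pool.Agent.H81.NCH.cls_thm (hCLP : CLPStmt) : CLSStmt :=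
  Pool.Agent.H57.NCH.cls_thm hCLP

end Pool.Agent.H57.NCH
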