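import Pool.Agent.H81.NCH.Stmts
import Pool.Agent.H81.NCH.Base

/-!
# NCH: the potential on the two sides of a stop
-/

set_option autoImplicit false

namespace Pool.Agent.H57.NCH

open Pool.Agent.H81.NCH

theorem pot_card (e : ℕ) (p q : ℕ → Prop) [DecidablePred p] [DecidablePred q]
    (hpq : ∀ D < e, p D → q D) :
    ((Finset.range (e + 10)).filter p).card ≤ ((Finset.range e).filter q).card + 10 := by
  have h1 : (Finset.range (e + 10)).filter p ⊆
      (Finset.range e).filter q ∪ Finset.Ico e (e + 10) := by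
    intro D hD
    rw [Finset.mem_filter, Finset.mem_range] at hD
    rw [Finset.mem_union, Finset.mem_filter, Finset.mem_range, Finset.mem_Ico]
    rcases Nat.lt_or_ge D e with h2 | h2
    · exact Or.inl ⟨h2, hpq D h2 hD.2⟩
    · exact Or.inr ⟨h2, hD.1⟩
  refine (Finset.card_le_card h1).trans ((Finset.card_union_le _ _).trans ?_)
  rw [Nat.card_Ico]
  omega

theorem pot_div {e i y D : ℕ} (hy : y / 2 ^ 10 = i) (hD : D < e) :
    y / 2 ^ (e + 10 - D) = i / 2 ^ (e - D) := by
  rw [← hy, Nat.div_div_eq_div_mul, ← pow_add]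
  congr 2
  omega

theorem pot_le {h m e i a b a' b' y : ℕ} (hy : y / 2 ^ 10 = i) (ha : a ≤ a') (hb : b' ≤ b) :
    Pot h m e i a b - 30 ≤ Pot h m (e + 10) y a' b' := by
  have h1 : An h m (e + 10) y a' ≤ An h m e i a + 10 := by
    unfold An
    refine pot_card e _ _ fun D hD => ?_
    rw [pot_div hy hD]
    rintro ⟨h2, h3⟩
    exact ⟨h2, by omega⟩
  have h2 : Bn h m (e + 10) y b' ≤ Bn h m e i b + 10 := by
    unfold Bn
    refine pot_card e _ _ fun D hD => ?_
    rw [pot_div hy hD]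
    rintro ⟨h2, h3⟩
    exact ⟨h2, by omega⟩
  unfold Pot
  push_cast
  omega

theorem pot_side {h m e i a b A B x : ℕ} (he : e + 10 ≤ h) (hi : i < 2 ^ e) (hx : x < 512)
    (h1 : a ≤ cs h m (e + 9) (512 * i + x)) (h2 : ce h m (e + 9) (512 * i + x) ≤ b)
    (hA : A ≤ a) (hB : b ≤ B) :
    ∃ y, y < 2 ^ (e + 10) ∧ Inside e i (e + 10) y ∧ a ≤ cs h m (e + 10) y ∧
      ce h m (e + 10) y ≤ b ∧ a ≤ st h m (e + 10) y ∧ en h m (e + 10) y ≤ b ∧
      Pot h m e i A B - 30 ≤ Pot h m (e + 10) y a b := by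
  have hp : 2 ^ (e + 10) = 1024 * 2 ^ e := by rw [pow_add]; ring
  have hy1 : 2 * (512 * i + x) < 2 ^ (e + 10) := by
    rw [hp]; omega
  have hy2 : 2 * (512 * i + x) / 2 ^ 10 = i := by
    norm_num
    omega
  have hst : st h m (e + 10) (2 * (512 * i + x)) = cs h m (e + 9) (512 * i + x) :=
    st_left (e + 9) (512 * i + x)
  have hen : en h m (e + 10) (2 * (512 * i + x)) = md h m (e + 9) (512 * i + x) :=
    en_left (e + 9) (512 * i + x)
  have hmd := ce_eq_md (h := h) (m := m) (e := e + 9) (by omega) (512 * i + x)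
  have h3 := st_le_cs (h := h) (m := m) (e + 10) (2 * (512 * i + x))
  have h4 := ce_le_en (h := h) (m := m) (e + 10) (2 * (512 * i + x))
  refine ⟨2 * (512 * i + x), hy1, ⟨by omega, ?_⟩, by omega, by omega, by omega, by omega,
    pot_le hy2 hA hB⟩
  have h5 : e + 10 - e = 10 := by omega
  rw [h5]
  exact hy2

theorem pot_thm : POTStmt := by
  rintro h m e i a c b _ he hi _ ⟨⟨x, hx, h1, h2⟩, ⟨x', hx', h1', h2'⟩⟩
  have h3 := cs_le_ce (h := h) (m := m) (e + 9) (512 * i + x)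
  have h3' := cs_le_ce (h := h) (m := m) (e + 9) (512 * i + x')
  exact ⟨pot_side he hi hx h1 h2 le_rfl (by omega), pot_side he hi hx' h1' h2' (by omega) le_rfl⟩

theorem _root_.Pool.Agent.H81.NCH.pot_thm : POTStmt := Pool.Agent.H57.NCH.pot_thm

end Pool.Agent.H57.NCH
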